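import Pool.Agent.H3.PS.Stm

set_option autoImplicit false

namespace Pool.Agent.H96.PS

open MeasureTheory ProbabilityTheory Filter Topology
open Pool.Agent.H3.PS
open Pool.Agent.Helper581.Sand

lemma one_le_last {d : ℕ} (a : (Fin d → ℤ) → ℤ) (x : Fin d → ℤ) (t : ℕ) :
    1 ≤ last a t x ↔ ∃ s < t, 2 * (d : ℤ) ≤ run a s x := by
  induction t with
  | zero => simp [last]
  | succ t ih =>
    rw [last]
    split_ifs with h
    · constructor
      · intro _
        exact ⟨t, Nat.lt_succ_self t, h⟩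
      · intro _
        omega
    · rw [ih]
      constructor
      · rintro ⟨s, hs, h'⟩
        exact ⟨s, by omega, h'⟩
      · rintro ⟨s, hs, h'⟩
        rcases Nat.lt_succ_iff_lt_or_eq.1 hs with h1 | h1
        · exact ⟨s, h1, h'⟩
        · subst h1
          exact absurd h' h

theorem LOW (hMT : S_MT) (hPU : S_PU) : S_LOW := by
  intro ε hε hε1 d hd l hl
  obtain ⟨hI, hJ⟩ := hPU ε hε hε1 d l hl
  set b : ℝ := (1 - ε / 2) * d with hb
  have hd0 : (0 : ℝ) < d := by exact_mod_cast hd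
  set μ := poissonField d l with hμ
  haveI : IsProbabilityMeasure μ := by
    rw [hμ]; unfold poissonField; infer_instance
  have hmp : MeasurePreserving (fun ω : (Fin d → ℤ) → ℕ => ω 0) μ (poissonMeasure l) :=
    measurePreserving_eval_infinitePi (fun _ : Fin d → ℤ => poissonMeasure l) 0
  have hI2 : Integrable (fun ω : (Fin d → ℤ) → ℕ => max 0 ((ω 0 : ℝ) - b)) μ :=
    hmp.integrable_comp_of_integrable hI
  have hJ2 : ∫ ω, max 0 (((ω : (Fin d → ℤ) → ℕ) 0 : ℝ) - b) ∂μ ≤
      4 / ε * Real.exp (-(ε ^ 2 * d / 16)) := by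
    have e : ∫ ω, max 0 (((ω : (Fin d → ℤ) → ℕ) 0 : ℝ) - b) ∂μ =
        ∫ n : ℕ, max 0 ((n : ℝ) - b) ∂(poissonMeasure l) := by
      rw [← hmp.map_eq, integral_map hmp.measurable.aemeasurable (by exact .of_discrete)]
    rw [e]
    exact hJ
  set T : ℕ → Set ((Fin d → ℤ) → ℕ) := fun t => {ω | 1 ≤ last (cf ω) t 0} with hT
  have hTm : ∀ t, MeasurableSet (T t) := by
    intro t
    have : T t = ⋃ s : ℕ, ⋃ _ : s < t, {ω | 2 * (d : ℤ) ≤ run (cf ω) s 0} := by
      ext ω
      simp only [hT, Set.mem_setOf_eq, one_le_last, Set.mem_iUnion, exists_prop]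
    rw [this]
    exact MeasurableSet.iUnion fun s => MeasurableSet.iUnion fun _ =>
      measurableSet_le measurable_const (meas_run s 0)
  have hmono : Monotone T := by
    intro s t hst ω hω
    simp only [hT, Set.mem_setOf_eq, one_le_last] at hω ⊢
    obtain ⟨r, hr, h⟩ := hω
    exact ⟨r, by omega, h⟩
  have hU : {ω | Topples (cf ω) 0} = ⋃ t, T t := by
    ext ω
    simp only [hT, Set.mem_setOf_eq, one_le_last, Set.mem_iUnion, Topples]
    constructor
    · rintro ⟨s, hs⟩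
      exact ⟨s + 1, s, Nat.lt_succ_self s, hs⟩
    · rintro ⟨t, s, _, hs⟩
      exact ⟨s, hs⟩
  have hbd : ∀ t, μ.real (T t) ≤ 8 / (ε ^ 2 * d) * Real.exp (-(ε ^ 2 * d / 16)) := by
    intro t
    have h1 := hMT d hd l t
    have h2 : ∫ ω in T t, ((ω : (Fin d → ℤ) → ℕ) 0 : ℝ) ∂μ ≤
        ∫ ω in T t, (max 0 (((ω : (Fin d → ℤ) → ℕ) 0 : ℝ) - b) + b) ∂μ := by
      refine integral_mono_of_nonneg (Eventually.of_forall fun ω => Nat.cast_nonneg _)
        ((hI2.add (integrable_const b)).integrableOn) (Eventually.of_forall fun ω => ?_)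
      show ((ω 0 : ℕ) : ℝ) ≤ max 0 ((ω 0 : ℝ) - b) + b
      have := le_max_right 0 ((ω 0 : ℝ) - b)
      linarith
    rw [integral_add hI2.integrableOn (integrable_const b).integrableOn, setIntegral_const,
      smul_eq_mul] at h2
    have h3 : ∫ ω in T t, max 0 (((ω : (Fin d → ℤ) → ℕ) 0 : ℝ) - b) ∂μ ≤
        ∫ ω, max 0 (((ω : (Fin d → ℤ) → ℕ) 0 : ℝ) - b) ∂μ :=
      setIntegral_le_integral hI2 (Eventually.of_forall fun ω => le_max_left _ _)
    have h4 : (d : ℝ) * μ.real (T t) ≤ 4 / ε * Real.exp (-(ε ^ 2 * d / 16)) + μ.real (T t) * b :=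
      h1.trans (h2.trans (by linarith))
    have h5 : (ε / 2 * d) * μ.real (T t) ≤ 4 / ε * Real.exp (-(ε ^ 2 * d / 16)) := by
      rw [hb] at h4
      linarith
    have h6 : 0 < ε / 2 * d := by positivity
    rw [← le_div_iff₀' h6] at h5
    refine h5.trans (le_of_eq ?_)
    field_simp
    ring
  rw [hU]
  have htend := tendsto_measure_iUnion_atTop (μ := μ) hmono
  have htend2 : Tendsto (fun t => μ.real (T t)) atTop (𝓝 (μ.real (⋃ t, T t))) :=
    (ENNReal.tendsto_toReal (measure_ne_top μ _)).comp htend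
  exact le_of_tendsto' htend2 hbd

end Pool.Agent.H96.PS
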