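import Pool.Agent.H3.PS.Stm

set_option autoImplicit false

namespace Pool.Agent.H96.PS

open MeasureTheory ProbabilityTheory Filter Topology
open Pool.Agent.H3.PS
open Pool.Agent.Helper581.Sand
open scoped Nat

/-- exponential moments of the Poisson law -/
lemma hasSum_exp_pois (l : NNReal) (s : ℝ) :
    HasSum (fun n : ℕ => Real.exp (-(l : ℝ)) * (l : ℝ) ^ n / n ! * Real.exp (s * n))
      (Real.exp ((l : ℝ) * (Real.exp s - 1))) := by
  convert! (NormedSpace.expSeries_div_hasSum_exp ((l : ℝ) * Real.exp s)).mul_left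
    (Real.exp (-(l : ℝ))) using 1
  · funext n
    rw [mul_pow, ← Real.exp_nat_mul, mul_comm (n : ℝ) s]
    ring
  · rw [← Real.exp_eq_exp_ℝ, ← Real.exp_add]
    congr 1
    ring

lemma integrable_exp_pois (l : NNReal) (s : ℝ) :
    Integrable (fun n : ℕ => Real.exp (s * n)) (poissonMeasure l) := by
  rw [integrable_poissonMeasure_iff]
  refine (hasSum_exp_pois l s).summable.congr fun n => ?_
  rw [Real.norm_of_nonneg (Real.exp_pos _).le]

lemma integral_exp_pois (l : NNReal) (s : ℝ) :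
    ∫ n : ℕ, Real.exp (s * n) ∂(poissonMeasure l) = Real.exp ((l : ℝ) * (Real.exp s - 1)) := by
  rw [integral_poissonMeasure]
  exact (hasSum_exp_pois l s).tsum_eq

lemma exp_neg_le_quad {x : ℝ} (hx : 0 ≤ x) : Real.exp (-x) ≤ 1 - x + x ^ 2 / 2 := by
  have h1 := Real.quadratic_le_exp_of_nonneg hx
  rw [Real.exp_neg]
  have h2 : 0 < 1 + x + x ^ 2 / 2 := by positivity
  have h3 : (Real.exp x)⁻¹ ≤ (1 + x + x ^ 2 / 2)⁻¹ := inv_anti₀ h2 h1
  refine h3.trans ?_
  rw [inv_le_iff_one_le_mul₀ h2]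
  nlinarith [sq_nonneg (x ^ 2)]

theorem PL : S_PL := by
  intro ε hε hε1 d l hl
  set θ : ℝ := ε / 4 with hθ
  have hθ0 : 0 < θ := by positivity
  set a : ℝ := (1 + ε / 2) * d with ha
  have hd : (0 : ℝ) ≤ d := Nat.cast_nonneg d
  -- Markov
  have h1 : (poissonMeasure l).real {n : ℕ | (n : ℝ) < a} ≤
      ∫ n : ℕ, Real.exp (θ * a) * Real.exp (-θ * n) ∂(poissonMeasure l) := by
    have hm : MeasurableSet {n : ℕ | (n : ℝ) < a} := MeasurableSet.of_discrete
    rw [← integral_indicator_one hm]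
    refine integral_mono_of_nonneg (Eventually.of_forall fun n => ?_)
      ((integrable_exp_pois l (-θ)).const_mul _) (Eventually.of_forall fun n => ?_)
    · exact Set.indicator_nonneg (fun _ _ => by simp) n
    · show Set.indicator {n : ℕ | (n : ℝ) < a} 1 n ≤ Real.exp (θ * a) * Real.exp (-θ * n)
      by_cases hn : (n : ℝ) < a
      · rw [Set.indicator_of_mem (by exact hn), Pi.one_apply, ← Real.exp_add]
        apply Real.one_le_exp
        nlinarith
      · rw [Set.indicator_of_notMem (by exact hn)]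
        positivity
  rw [integral_const_mul, integral_exp_pois, ← Real.exp_add] at h1
  refine h1.trans (Real.exp_le_exp.2 ?_)
  have h2 := exp_neg_le_quad hθ0.le
  have h3 : (l : ℝ) * (Real.exp (-θ) - 1) ≤ (l : ℝ) * (-θ + θ ^ 2 / 2) := by
    apply mul_le_mul_of_nonneg_left _ l.coe_nonneg
    linarith
  have h4 : -θ + θ ^ 2 / 2 ≤ 0 := by
    rw [hθ]; nlinarith
  have h5 : (l : ℝ) * (-θ + θ ^ 2 / 2) ≤ ((1 + ε) * d) * (-θ + θ ^ 2 / 2) :=
    mul_le_mul_of_nonpos_right hl h4
  have h6 : θ * a + ((1 + ε) * d) * (-θ + θ ^ 2 / 2) ≤ -(ε ^ 2 * d / 16) := by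
    rw [ha, hθ]
    have : 0 ≤ (d : ℝ) * (ε ^ 2 * (1 - ε)) := by
      apply mul_nonneg hd
      apply mul_nonneg (sq_nonneg _)
      linarith
    nlinarith
  linarith

theorem PU : S_PU := by
  intro ε hε hε1 d l hl
  set θ : ℝ := ε / 4 with hθ
  have hθ0 : 0 < θ := by positivity
  set a : ℝ := (1 - ε / 2) * d with ha
  have hd : (0 : ℝ) ≤ d := Nat.cast_nonneg d
  have hpt : ∀ n : ℕ, max 0 ((n : ℝ) - a) ≤ Real.exp (-(θ * a)) / θ * Real.exp (θ * n) := by
    intro n
    have e : Real.exp (-(θ * a)) / θ * Real.exp (θ * n) = Real.exp (θ * (n - a)) / θ := by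
      rw [div_mul_eq_mul_div, ← Real.exp_add]
      congr 2
      ring
    rw [e]
    apply max_le
    · positivity
    · rw [le_div_iff₀ hθ0]
      have := Real.add_one_le_exp (θ * (n - a))
      linarith
  have hI := (integrable_exp_pois l θ).const_mul (Real.exp (-(θ * a)) / θ)
  refine ⟨?_, ?_⟩
  · refine hI.mono' (by exact .of_discrete) (Eventually.of_forall fun n => ?_)
    rw [Real.norm_of_nonneg (le_max_left _ _)]
    exact hpt n
  · have h1 : ∫ n : ℕ, max 0 ((n : ℝ) - a) ∂(poissonMeasure l) ≤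
        ∫ n : ℕ, Real.exp (-(θ * a)) / θ * Real.exp (θ * n) ∂(poissonMeasure l) :=
      integral_mono_of_nonneg (Eventually.of_forall fun n => le_max_left _ _) hI
        (Eventually.of_forall hpt)
    rw [integral_const_mul, integral_exp_pois] at h1
    refine h1.trans ?_
    have e : Real.exp (-(θ * a)) / θ * Real.exp ((l : ℝ) * (Real.exp θ - 1)) =
        4 / ε * Real.exp (-(θ * a) + (l : ℝ) * (Real.exp θ - 1)) := by
      rw [Real.exp_add, hθ]
      field_simp
    rw [e]
    apply mul_le_mul_of_nonneg_left _ (by positivity)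
    apply Real.exp_le_exp.2
    have h2 := abs_le.1 (Real.abs_exp_sub_one_sub_id_le (x := θ) (by
      rw [abs_of_pos hθ0, hθ]; linarith))
    have h3 : (l : ℝ) * (Real.exp θ - 1) ≤ ((1 - ε) * d) * (θ + θ ^ 2) := by
      apply mul_le_mul hl (by linarith [h2.2]) (by linarith [Real.add_one_le_exp θ])
      exact mul_nonneg (by linarith) hd
    have h6 : -(θ * a) + ((1 - ε) * d) * (θ + θ ^ 2) ≤ -(ε ^ 2 * d / 16) := by
      rw [ha, hθ]
      have : 0 ≤ (d : ℝ) * ε ^ 3 := by positivity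
      nlinarith
    linarith

end Pool.Agent.H96.PS
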